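import Mathlib

namespace Pool.Agent.Results.MP_73e407_co.Triangle

open Finset

section defs
variable {W : Type} [DecidableEq W] (H : SimpleGraph W)

/-- No three vertices of `S` lie on a common shortest path. -/
def IsGP (S : Finset W) : Prop :=
  ∀ (u v : W) (p : H.Walk u v), p.length = H.dist u v → ∀ x ∈ S, ∀ y ∈ S, ∀ z ∈ S,
    x ≠ y → x ≠ z → y ≠ z → ¬ (x ∈ p.support ∧ y ∈ p.support ∧ z ∈ p.support)

/-- A legal move of one robot. -/
def Move (S T : Finset W) : Prop :=
  ∃ a ∈ S, ∃ b ∉ S, H.Adj a b ∧ T = insert b (S.erase a) ∧ IsGP H T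

/-- A legal move on states (occupied vertices, vertices occupied at some moment so far). -/
def Step (p q : Finset W × Finset W) : Prop := Move H p.1 q.1 ∧ q.2 = p.2 ∪ q.1

def IsMobile [Fintype W] (S : Finset W) : Prop :=
  IsGP H S ∧ ∃ T, Relation.ReflTransGen (Step H) (S, S) (T, univ)

open Classical in
noncomputable def mob [Fintype W] : ℕ := (univ.filter (IsMobile H)).sup card

theorem mv {R : Finset W} {a b : W} (ha : a ∉ R) (hb : b ∉ R) (h : H.Adj a b)
    (g : IsGP H (insert b R)) : Move H (insert a R) (insert b R) :=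
  ⟨a, mem_insert_self _ _, b, by simp [hb, h.ne'], h, by rw [erase_insert ha], g⟩

def P (S : Finset W) (v : W) : Prop :=
  ∀ A, ∃ A', Relation.ReflTransGen (Step H) (S, A) (S, A') ∧ A ⊆ A' ∧ (S ⊆ A → v ∈ A')

theorem P0 {S : Finset W} {v : W} (h : v ∈ S) : P H S v :=
  fun A => ⟨A, .refl, subset_rfl, fun h' => h' h⟩

theorem P1 {S T : Finset W} {v : W} (h1 : Move H S T) (h2 : Move H T S) (h : P H T v) :
    P H S v := fun A => by
  obtain ⟨A', r, s, t⟩ := h (A ∪ T)
  exact ⟨A' ∪ S, .head (b := (T, A ∪ T)) ⟨h1, rfl⟩ (r.tail ⟨h2, rfl⟩),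
    (subset_union_left.trans s).trans subset_union_left,
    fun _ => mem_union_left _ (t subset_union_right)⟩

theorem mobile [Fintype W] {S : Finset W} (g : IsGP H S) (h : ∀ v, P H S v) : IsMobile H S := by
  have : ∀ U : Finset W, ∃ A, Relation.ReflTransGen (Step H) (S, S) (S, A) ∧ S ⊆ A ∧ U ⊆ A := by
    intro U
    induction U using Finset.induction_on with
    | empty => exact ⟨S, .refl, subset_rfl, empty_subset _⟩
    | insert v U _ ih =>
      obtain ⟨A, r, s, t⟩ := ih
      obtain ⟨A', r', s', t'⟩ := h v A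
      exact ⟨A', r.trans r', s.trans s', insert_subset (t' s) (t.trans s')⟩
  obtain ⟨A, r, -, t⟩ := this univ
  exact ⟨g, S, (univ_subset_iff.1 t) ▸ r⟩

theorem gp (hd : ∀ u v, H.dist u v ≤ 2) {S : Finset W}
    (h : ∀ x ∈ S, ∀ y ∈ S, ∀ z ∈ S, H.Adj x y → H.Adj y z → x ≠ z → H.Adj x z) : IsGP H S := by
  intro u v p hp x hx y hy z hz h1 h2 h3 hs
  have hd' := hd u v
  match p, hp, hs with
  | .nil, _, hs => simp at hs; grind
  | .cons _ .nil, _, hs => simp at hs; grind
  | .cons (v := m) e1 (.cons e2 .nil), hp, hs =>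
    simp at hs hp
    have n1 : u ≠ v := fun e => by subst e; simp at hp
    have n2 : ¬ H.Adj u v := fun e => by rw [SimpleGraph.dist_eq_one_iff_adj.2 e] at hp; omega
    exact n2 (h u (by grind) m (by grind) v (by grind) e1 e2 n1)
  | .cons _ (.cons _ (.cons _ _)), hp, _ => simp at hp; omega
end defs

/-- The join `G ∨ K₁`; `none` is the new vertex. -/
def cone {V : Type} (G : SimpleGraph V) : SimpleGraph (Option V) where
  Adj
    | some a, some b => G.Adj a b
    | none, none => False
    | _, _ => True
  symm := ⟨fun a b h => by cases a <;> cases b <;> first | exact h | exact G.symm.1 _ _ h⟩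
  loopless := ⟨fun a h => by cases a <;> first | exact h | exact G.irrefl h⟩

theorem result {V : Type} [Fintype V] [DecidableEq V] (G : SimpleGraph V)
    (h : 3 ≤ G.cliqueNum) : 3 ≤ mob (cone G) := by
  classical
  have hd : ∀ u v, (cone G).dist u v ≤ 2 := fun u v => by
    rcases u with _ | u <;> rcases v with _ | v
    · simp
    · rw [SimpleGraph.dist_eq_one_iff_adj.2 (by trivial)]; omega
    · rw [SimpleGraph.dist_eq_one_iff_adj.2 (by trivial)]; omega
    · exact SimpleGraph.dist_le (.cons (show (cone G).Adj (some u) none from trivial)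
        (.cons (show (cone G).Adj none (some v) from trivial) .nil))
  have g1 : ∀ a b, G.Adj a b → IsGP (cone G) {none, some a, some b} := fun a b e => by
    refine gp _ hd fun x hx y hy z hz h1 h2 h3 => ?_
    have := e.symm
    simp only [mem_insert, mem_singleton] at hx hz
    rcases hx with rfl | rfl | rfl <;> rcases hz with rfl | rfl | rfl <;>
      first | exact absurd rfl h3 | trivial
  have g2 : ∀ a b y, G.Adj a b → y ≠ a → y ≠ b → (G.Adj y a ↔ G.Adj y b) →
      P (cone G) {none, some a, some b} (some y) := fun a b y e n1 n2 i => by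
    have g : IsGP (cone G) {some y, some a, some b} := by
      refine gp _ hd fun x hx t ht z hz h1 h2 h3 => ?_
      have := e.symm
      have c1 := G.adj_comm y a
      have c2 := G.adj_comm y b
      have := G.irrefl (v := a)
      have := G.irrefl (v := b)
      have := G.irrefl (v := y)
      simp only [mem_insert, mem_singleton] at hx ht hz
      rcases hx with rfl | rfl | rfl <;> rcases ht with rfl | rfl | rfl <;>
        rcases hz with rfl | rfl | rfl <;> simp only [cone] at h1 h2 ⊢ <;> tauto
    exact P1 _ (mv _ (by simp) (by simp [n1, n2]) (by trivial) g)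
      (mv _ (by simp [n1, n2]) (by simp) (by trivial) (g1 a b e)) (P0 _ (by simp))
  have g3 : ∀ a b c, G.Adj a b → G.Adj a c → G.Adj b c →
      Move (cone G) {none, some a, some b} {none, some a, some c} := fun a b c e1 e2 e3 => by
    have q : ∀ t : V, ({none, some a, some t} : Finset (Option V)) = {some t, none, some a} :=
      fun t => by ext; simp; tauto
    have := g1 a c e2
    rw [q] at this
    rw [q, q]
    exact mv _ (by simp [e1.ne']) (by simp [e2.ne']) e3 this
  obtain ⟨s, hs⟩ := G.exists_isNClique_cliqueNum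
  obtain ⟨a, ha, b, hb, c, hc, ab, ac, bc⟩ := two_lt_card.1 (show 2 < s.card by
    rw [hs.card_eq]; omega)
  have e1 := hs.isClique ha hb ab
  have e2 := hs.isClique ha hc ac
  have e3 := hs.isClique hb hc bc
  have m : IsMobile (cone G) {none, some a, some b} := by
    refine mobile _ (g1 a b e1) fun v => ?_
    rcases v with _ | y
    · exact P0 _ (by simp)
    by_cases n1 : y = a
    · exact P0 _ (by simp [n1])
    by_cases n2 : y = b
    · exact P0 _ (by simp [n2])
    by_cases i : G.Adj y a ↔ G.Adj y b
    · exact g2 a b y e1 n1 n2 i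
    have n3 : y ≠ c := fun e => i (e ▸ iff_of_true e2.symm e3.symm)
    by_cases j : G.Adj y a ↔ G.Adj y c
    · exact P1 _ (g3 a b c e1 e2 e3) (g3 a c b e2 e1 e3.symm) (g2 a c y e2 n1 n3 j)
    · rw [pair_comm]
      exact P1 _ (g3 b a c e1.symm e3 e2) (g3 b c a e3 e1.symm e2.symm)
        (g2 b c y e3 n2 n3 (by tauto))
  refine le_trans ?_ (Finset.le_sup (f := card) (b := {none, some a, some b})
    (by simpa using m))
  rw [card_insert_of_notMem (by simp), card_pair (by simpa using ab)]

end Pool.Agent.Results.MP_73e407_co.Triangle
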